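import Pool.Agent.U150.SM.Space

/-!
# One-dimensional stable multi-matchings with odd degrees can have an infinite component

If `k μ([k, ∞)) / log log k → ∞`, then the stable multi-matching of the Poisson process on `ℝ` with
degree law `μ` almost surely has an infinite component. Such a `μ` may give any mass to odd
integers, so the equivalence of Q1 fails.

Idea: two points with more stubs than there are points in a large interval around both are
adjacent in every stable multi-matching, and almost surely all late dyadic shells contain such a
point.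

The definitions are in `Pool/Agent/U150/SM/Defs.lean`.
-/

set_option autoImplicit false

namespace Pool.Agent.Results.MP_32afb7_pr.OddDegreesPercolate

open MeasureTheory ProbabilityTheory Set Filter Topology
open scoped ENNReal NNReal
open Pool.Agent.U150.SM

/-- There are laws `μ` on `{1, 2, …}` with `μ({1}) > 0` and `k μ([k, ∞)) / log log k → ∞`. For every
law `μ` on `{1, 2, …}` with the latter property, and for the Poisson process of intensity one on
`ℝ` with independent numbers of stubs of law `μ` (which exists), almost surely a stable
multi-matching exists, and in every stable multi-matching all the stubs are used and there is an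
infinite component. -/
theorem result :
    (∃ μ : PMF ℕ, μ 0 = 0 ∧ 0 < μ 1 ∧ HeavyTail μ) ∧
    ∀ μ : PMF ℕ, μ 0 = 0 → HeavyTail μ →
      (∃ (Ω : Type) (_ : MeasurableSpace Ω) (P : Measure Ω) (_ : IsProbabilityMeasure P)
        (x : ℕ → Ω → ℝ) (D : ℕ → Ω → ℕ), IsMarkedPoisson P μ x D) ∧
      ∀ (Ω : Type) [MeasurableSpace Ω] (P : Measure Ω) [IsProbabilityMeasure P]
        (x : ℕ → Ω → ℝ) (D : ℕ → Ω → ℕ), IsMarkedPoisson P μ x D →
        ∀ᵐ ω ∂P,
          (∃ G, IsStableMultiMatching (fun i => x i ω) (fun i => D i ω) G) ∧
          ∀ G, IsStableMultiMatching (fun i => x i ω) (fun i => D i ω) G →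
            (∀ i, (G.neighborSet i).encard = D i ω) ∧ HasInfiniteComponent G := by
  refine ⟨⟨law 1, ?_, ?_, heavy_law 1⟩, ?_⟩
  · rw [law_apply, if_neg (by omega)]
  · rw [law_apply, if_pos le_rfl, ENNReal.ofReal_pos, Nat.sub_self]
    unfold g
    have h1 : Real.sqrt ((0 : ℕ) + 1) < Real.sqrt ((0 : ℕ) + 2) :=
      Real.sqrt_lt_sqrt (by norm_num) (by norm_num)
    have h2 := one_div_lt_one_div_of_lt (Real.sqrt_pos.2 (by norm_num)) h1
    linarith
  · intro μ _ hμ
    refine ⟨exists_marked μ exists_poisson_R, ?_⟩
    intro Ω _ P _ x D h
    exact main (growth_of_normed ℝ (by simp)) h hμ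

end Pool.Agent.Results.MP_32afb7_pr.OddDegreesPercolate
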